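import Mathlib

set_option autoImplicit false

namespace Pool.Agent.Results.MP_02ff8d_an.NonUnique

open scoped RealInnerProductSpace

section defs

variable {X : Type} [NormedAddCommGroup X] [InnerProductSpace ℝ X]

/-- the Legendre-Fenchel conjugate -/
noncomputable def conj (f : X → EReal) (y : X) : EReal := ⨆ x, (((⟪y, x⟫ : ℝ) : EReal) - f x)

/-- positive definite: self-adjoint with positive quadratic form -/
def PosDef (E : X ≃L[ℝ] X) : Prop :=
  (∀ x y, ⟪E x, y⟫ = ⟪x, E y⟫) ∧ ∀ x, x ≠ 0 → 0 < ⟪E x, x⟫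

/-- `f` solves the fixed point equation -/
def Solves (τ : ℝ) (c w : X) (β : ℝ) (E : X ≃L[ℝ] X) (f : X → EReal) : Prop :=
  ∀ x, f x = (τ : EReal) * conj f (E x + c) + ((⟪w, x⟫ : ℝ) : EReal) + (β : EReal)

/-- the quadratic solution -/
noncomputable def f0 (τ : ℝ) (c w : X) (β : ℝ) (E : X ≃L[ℝ] X) (x : X) : ℝ :=
  1 / 2 * ⟪√τ • E x, x⟫ + ⟪(1 + √τ)⁻¹ • (w + √τ • c), x⟫ +
    (β * (1 + √τ) ^ 2 + 1 / 2 * √τ * ⟪c - w, E.symm (c - w)⟫) / ((1 + √τ) ^ 2 * (τ + 1))

end defs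

noncomputable def F (x : ℝ) : ℝ := ((⌊x⌋ : ℝ) + 1) * x - ((⌊x⌋ : ℝ) + 1) * ⌊x⌋ / 2

lemma young (x t : ℝ) : (x + 1) * t - F t ≤ F x := by
  unfold F
  have a0 := Int.floor_le x
  have a1 := (Int.lt_floor_add_one x).le
  have b0 := Int.floor_le t
  have b1 := (Int.lt_floor_add_one t).le
  generalize ⌊x⌋ = n at *
  generalize ⌊t⌋ = k at *
  obtain ⟨a, rfl⟩ : ∃ a, x = n + a := ⟨x - n, by ring⟩
  obtain ⟨b, rfl⟩ : ∃ b, t = k + b := ⟨t - k, by ring⟩
  obtain ⟨j, hj⟩ : ∃ j : ℤ, n = k + j := ⟨n - k, by ring⟩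
  have hn : (n : ℝ) = k + j := by exact_mod_cast hj
  rw [hn] at *
  have ha : 0 ≤ a := by linarith
  have ha1 : 0 ≤ 1 - a := by linarith
  have hb : 0 ≤ b := by linarith
  have hb1 : 0 ≤ 1 - b := by linarith
  have key : ∀ m : ℤ, (0 : ℝ) ≤ m * (m + 1) := fun m => by
    have : (0 : ℤ) ≤ m * (m + 1) := by
      rcases le_or_gt 0 m with h | h
      · positivity
      · nlinarith
    exact_mod_cast this
  have k0 := key j
  have k1 := key (j + 1)
  have k2 := key (j - 1)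
  push_cast at k1 k2
  have e1 := mul_nonneg (mul_nonneg ha1 hb1) k0
  have e2 := mul_nonneg (mul_nonneg ha hb1) k1
  have e3 := mul_nonneg (mul_nonneg ha1 hb) k2
  have e4 := mul_nonneg (mul_nonneg ha hb) k0
  nlinarith

lemma attain (x : ℝ) : (x + 1) * ((⌊x⌋ + 1 : ℤ) : ℝ) - F ((⌊x⌋ + 1 : ℤ) : ℝ) = F x := by
  unfold F
  rw [Int.floor_intCast]
  push_cast
  ring

lemma solves : Solves (X := ℝ) 1 1 0 0 (ContinuousLinearEquiv.refl ℝ ℝ) fun x => (F x : EReal) := by
  intro x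
  have h : conj (fun x => (F x : EReal)) (x + 1) = F x := by
    apply le_antisymm
    · refine iSup_le fun t => ?_
      rw [← EReal.coe_sub, EReal.coe_le_coe_iff]
      have := young x t
      rw [Real.inner_apply]
      linarith
    · refine le_iSup_of_le ((⌊x⌋ + 1 : ℤ) : ℝ) ?_
      rw [← EReal.coe_sub, EReal.coe_le_coe_iff]
      have := attain x
      rw [Real.inner_apply]
      linarith
  simp only [ContinuousLinearEquiv.refl_apply, h, inner_zero_left]
  simp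

/-- Uniqueness fails: the equation `f x = f* (x + 1)` on the real line has a solution other
than the quadratic one. -/
theorem result : ∃ (X : Type) (_ : NormedAddCommGroup X) (_ : InnerProductSpace ℝ X)
    (_ : CompleteSpace X) (_ : Nontrivial X) (τ : ℝ) (c w : X) (β : ℝ) (E : X ≃L[ℝ] X),
    0 < τ ∧ PosDef E ∧ ∃ f : X → EReal, Solves τ c w β E f ∧
      f ≠ fun x => (f0 τ c w β E x : EReal) := by
  refine ⟨ℝ, inferInstance, inferInstance, inferInstance, inferInstance, 1, 1, 0, 0,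
    ContinuousLinearEquiv.refl ℝ ℝ, one_pos, ⟨fun x y => rfl, fun x hx => ?_⟩, _, solves,
    fun h => ?_⟩
  · exact real_inner_self_pos.2 hx
  · have h1 := congrFun h 0
    rw [EReal.coe_eq_coe_iff] at h1
    simp [F, f0] at h1
    norm_num at h1

end Pool.Agent.Results.MP_02ff8d_an.NonUnique
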